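import Pool.Agent.Helper79.PK.Defs

/-!
# Assigning objects to boxes, each box of one type
-/

namespace Pool.Agent.Helper79.PK

open Pool.Agent.Helper16.Disk7 MeasureTheory Metric

/-- PK-A. Assigning objects of `N` types to `B` boxes of capacity `M`, each box of one type. -/
theorem assign {k N M B : ℕ} (τ : Fin k → Fin N) (hM : 0 < M) (h : k + N * M ≤ B * M) :
    ∃ f : Fin k → Fin B × Fin M, Function.Injective f ∧
      ∀ i j, (f i).1 = (f j).1 → τ i = τ j := by
  classical
  -- the rank of an object in its type
  let rk : Fin k → ℕ := fun i => (Finset.univ.filter (fun j => j < i ∧ τ j = τ i)).card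
  let nn : Fin N → ℕ := fun t => (Finset.univ.filter (fun j => τ j = t)).card
  have hrk : ∀ i j, τ i = τ j → i < j → rk i < rk j := by
    intro i j hτ hij
    apply Finset.card_lt_card
    rw [Finset.ssubset_iff_of_subset]
    · refine ⟨i, ?_, ?_⟩
      · simp [hij, hτ]
      · simp
    · intro a ha
      simp only [Finset.mem_filter, Finset.mem_univ, true_and] at ha ⊢
      exact ⟨ha.1.trans hij, ha.2.trans hτ⟩
  have hrkn : ∀ i, rk i < nn (τ i) := by
    intro i
    apply Finset.card_lt_card
    rw [Finset.ssubset_iff_of_subset]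
    · refine ⟨i, ?_, ?_⟩
      · simp
      · simp
    · intro a ha
      simp only [Finset.mem_filter, Finset.mem_univ, true_and] at ha ⊢
      exact ha.2
  let key : Fin k → (_ : Fin N) × ℕ := fun i => ⟨τ i, rk i / M⟩
  let K : Finset ((_ : Fin N) × ℕ) := Finset.univ.image key
  have hKsub : K ⊆ Finset.univ.sigma (fun t => Finset.range (nn t / M + 1)) := by
    intro x hx
    obtain ⟨i, -, rfl⟩ := Finset.mem_image.1 hx
    simp only [Finset.mem_sigma, Finset.mem_univ, Finset.mem_range, true_and, key]
    have := Nat.div_le_div_right (c := M) (hrkn i).le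
    omega
  have hsum : ∑ t, nn t = k := by
    have := Finset.card_eq_sum_card_fiberwise (f := τ) (s := (Finset.univ : Finset (Fin k)))
      (t := (Finset.univ : Finset (Fin N))) (fun _ _ => Finset.mem_coe.2 (Finset.mem_univ _))
    simpa [nn] using this.symm
  have hKcard : K.card ≤ B := by
    have h1 : K.card ≤ ∑ t, (nn t / M + 1) := by
      refine (Finset.card_le_card hKsub).trans ?_
      simp
    have h2 : (∑ t, (nn t / M + 1)) * M ≤ k + N * M := by
      rw [Finset.sum_mul]
      calc ∑ t, (nn t / M + 1) * M ≤ ∑ t, (nn t + M) := by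
            refine Finset.sum_le_sum fun t _ => ?_
            have := Nat.div_mul_le_self (nn t) M
            nlinarith
        _ = k + N * M := by
            rw [Finset.sum_add_distrib, hsum]
            simp
    have h3 : K.card * M ≤ B * M := (Nat.mul_le_mul_right M h1).trans (h2.trans h)
    exact Nat.le_of_mul_le_mul_right h3 hM
  have hle : Fintype.card K ≤ Fintype.card (Fin B) := by
    simpa using hKcard
  obtain ⟨e⟩ := Function.Embedding.nonempty_of_card_le hle
  have hkK : ∀ i, key i ∈ K := fun i => Finset.mem_image_of_mem _ (Finset.mem_univ i)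
  refine ⟨fun i => (e ⟨key i, hkK i⟩, ⟨rk i % M, Nat.mod_lt _ hM⟩), ?_, ?_⟩
  · intro i j hij
    simp only [Prod.mk.injEq, EmbeddingLike.apply_eq_iff_eq, Subtype.mk.injEq, Fin.mk.injEq] at hij
    obtain ⟨h1, h2⟩ := hij
    have hτ : τ i = τ j := by
      have := congrArg Sigma.fst h1
      exact this
    have hd : rk i / M = rk j / M := by
      have := congrArg (fun x : (_ : Fin N) × ℕ => x.2) h1
      exact this
    have hr : rk i = rk j := by
      rw [← Nat.div_add_mod (rk i) M, ← Nat.div_add_mod (rk j) M, hd, h2]
    rcases lt_trichotomy i j with hlt | heq | hgt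
    · exact absurd hr (hrk i j hτ hlt).ne
    · exact heq
    · exact absurd hr.symm (hrk j i hτ.symm hgt).ne
  · intro i j hij
    simp only [EmbeddingLike.apply_eq_iff_eq, Subtype.mk.injEq] at hij
    exact congrArg Sigma.fst hij

end Pool.Agent.Helper79.PK
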